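import Pool.Agent.R619.TreeFG

/-!
# Two finitely generated isotypic algebras which are not isomorphic

The signature has the unary operations `t`, `c` and `s l`, where the labels `l` are pairs of a
colour (one of two) and a natural number. The algebra `Nd ℕ succ col` consists of the words `w` in
the labels put on top of the points `j` of the chain `0, 1, 2, ...`; `t` deletes the last letter
(and moves the point `j` of the chain to `j + 1`), `s l` adds the letter `l`, and `c` is the
identity on the nodes of the first colour and agrees with `t` on the nodes of the second colour. The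
colour of a node is the colour of its last letter; the point `j` of the chain has the colour
`col j`. The algebra is generated by the point `0`.

The starting library (`Pool/Agent/R619/Tree.lean`) shows that the shift along the chain is an
elementary embedding of `Nd ℕ succ (col ∘ succ)` into `Nd ℕ succ col`. For the two alternating
colourings of the chain each algebra is therefore an elementary substructure of the other one, so
they are isotypic. An isomorphism would carry the point `0` to the point `0`, and the two points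
have different colours.
-/

set_option autoImplicit false

namespace Pool.Agent.Results.MP_c850b7_lc.IsotypicNotIsomorphic

open FirstOrder FirstOrder.Language Pool.Agent.R619.Tree

/-- The algebra `A` belongs to the variety defined by the set of identities `E`. -/
def InVariety (L : FirstOrder.Language.{0, 0})
    (E : Set (Σ n : ℕ, L.Term (Fin n) × L.Term (Fin n)))
    (A : Type) [L.Structure A] : Prop :=
  ∀ e ∈ E, ∀ v : Fin e.1 → A, e.2.1.realize v = e.2.2.realize v

/-- The alternating colouring of the chain which starts with the first colour. -/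
def col0 (j : ℕ) : Bool := j % 2 == 0

/-- The alternating colouring of the chain which starts with the second colour. -/
def col1 (j : ℕ) : Bool := (j + 1) % 2 == 0

theorem col1_eq (j : ℕ) : col1 j = col0 (j + 1) := rfl

theorem col0_eq (j : ℕ) : col0 j = col1 (j + 1) := by
  unfold col0 col1
  congr 1
  omega

/-- The first algebra. -/
abbrev A : Type := Nd ℕ Nat.succ col0

/-- The second algebra. -/
abbrev B : Type := Nd ℕ Nat.succ col1

theorem types_shift {col col' : ℕ → Bool} (h : ∀ j, col' j = col (j + 1)) {n : ℕ}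
    (x : Fin n → Nd ℕ Nat.succ col') :
    ∃ y : Fin n → Nd ℕ Nat.succ col, SameType Pool.Agent.R619.Tree.L x y := by
  obtain rfl : col' = fun j => col (j + 1) := funext h
  exact ⟨sh col ∘ x, fun φ => (sh_elementary col φ x).symm⟩

theorem isotypic : Isotypic Pool.Agent.R619.Tree.L A B := by
  intro n
  refine ⟨fun a => types_shift col0_eq a, fun b => ?_⟩
  obtain ⟨a, ha⟩ := types_shift col1_eq b
  exact ⟨a, fun φ => (ha φ).symm⟩

section iso

variable {col col' : ℕ → Bool}

theorem map_chd (σ : Nd ℕ Nat.succ col ≃[Pool.Agent.R619.Tree.L] Nd ℕ Nat.succ col') (l : Lbl)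
    (y : Nd ℕ Nat.succ col) : σ (y.chd l) = (σ y).chd l :=
  σ.map_fun (n := 1) (Fn.s l) (fun _ => y)

theorem map_par (σ : Nd ℕ Nat.succ col ≃[Pool.Agent.R619.Tree.L] Nd ℕ Nat.succ col')
    (y : Nd ℕ Nat.succ col) : σ y.par = (σ y).par :=
  σ.map_fun (n := 1) Fn.t (fun _ => y)

theorem map_cop (σ : Nd ℕ Nat.succ col ≃[Pool.Agent.R619.Tree.L] Nd ℕ Nat.succ col')
    (y : Nd ℕ Nat.succ col) : σ y.cop = (σ y).cop :=
  σ.map_fun (n := 1) Fn.c (fun _ => y)

theorem chain_or (x : Nd ℕ Nat.succ col) : x.w = [] ∨ ∃ l y, x = Nd.chd l y := by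
  obtain ⟨w, j⟩ := x
  induction w using List.reverseRecOn with
  | nil => exact Or.inl rfl
  | append_singleton w l _ => exact Or.inr ⟨l, ⟨w, j⟩, rfl⟩

theorem chd_ne (l : Lbl) (y : Nd ℕ Nat.succ col) : (y.chd l).w ≠ [] := by
  simp [Nd.chd]

/-- An isomorphism maps the points of the chain to points of the chain. -/
theorem map_chain (σ : Nd ℕ Nat.succ col ≃[Pool.Agent.R619.Tree.L] Nd ℕ Nat.succ col')
    (x : Nd ℕ Nat.succ col) (hx : x.w = []) : (σ x).w = [] := by
  rcases chain_or (σ x) with h | ⟨l, y, h⟩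
  · exact h
  · exfalso
    have h1 : σ ((σ.symm y).chd l) = σ x := by
      rw [map_chd, h, FirstOrder.Language.Equiv.apply_symm_apply]
    have h2 := σ.injective h1
    rw [← h2] at hx
    exact chd_ne l _ hx

theorem par_iter (j i : ℕ) :
    (Nd.par)^[j] (⟨[], i⟩ : Nd ℕ Nat.succ col) = ⟨[], i + j⟩ := by
  induction j with
  | zero => rfl
  | succ j ih => rw [Function.iterate_succ_apply', ih, par_nil]; rfl

theorem map_iter (σ : Nd ℕ Nat.succ col ≃[Pool.Agent.R619.Tree.L] Nd ℕ Nat.succ col') (j : ℕ)
    (x : Nd ℕ Nat.succ col) : σ (Nd.par^[j] x) = Nd.par^[j] (σ x) := by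
  induction j with
  | zero => rfl
  | succ j ih => rw [Function.iterate_succ_apply', Function.iterate_succ_apply', map_par, ih]

/-- An isomorphism maps the point `0` of the chain to the point `0` of the chain. -/
theorem map_zero (σ : Nd ℕ Nat.succ col ≃[Pool.Agent.R619.Tree.L] Nd ℕ Nat.succ col') :
    σ ⟨[], 0⟩ = ⟨[], 0⟩ := by
  have h1 := map_chain σ ⟨[], 0⟩ rfl
  have h2 := map_chain σ.symm ⟨[], 0⟩ rfl
  obtain ⟨i, hi⟩ : ∃ i, σ ⟨[], 0⟩ = ⟨[], i⟩ := ⟨(σ ⟨[], 0⟩).j, Nd.ext' h1 rfl⟩
  obtain ⟨j, hj⟩ : ∃ j, σ.symm ⟨[], 0⟩ = ⟨[], j⟩ := ⟨(σ.symm ⟨[], 0⟩).j, Nd.ext' h2 rfl⟩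
  have h3 : σ ⟨[], j⟩ = ⟨[], 0⟩ := by rw [← hj, FirstOrder.Language.Equiv.apply_symm_apply]
  have h4 := map_iter σ j ⟨[], 0⟩
  rw [par_iter, hi, par_iter, Nat.zero_add, h3] at h4
  have h5 : (0 : ℕ) = i + j := congrArg Nd.j h4
  have h6 : i = 0 := by omega
  rw [hi, h6]

end iso

theorem not_iso : IsEmpty (A ≃[Pool.Agent.R619.Tree.L] B) := by
  refine ⟨fun σ => ?_⟩
  have h0 := map_zero σ
  have h := map_cop σ ⟨[], 0⟩
  have e1 : (⟨[], 0⟩ : A).cop = ⟨[], 0⟩ := rfl
  have e2 : (⟨[], 0⟩ : B).cop = ⟨[], 1⟩ := rfl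
  rw [e1, h0, e2] at h
  have h' : (0 : ℕ) = 1 := congrArg Nd.j h
  exact absurd h' (by norm_num)

/-- There are a variety (given by a set `E` of identities) and two finitely generated algebras `A`
and `B` in it which are isotypic but not isomorphic. -/
theorem result : ∃ (L : FirstOrder.Language.{0, 0}) (_ : ∀ n, IsEmpty (L.Relations n))
    (E : Set (Σ n : ℕ, L.Term (Fin n) × L.Term (Fin n)))
    (A B : Type) (_ : L.Structure A) (_ : L.Structure B),
    InVariety L E A ∧ InVariety L E B ∧ Structure.FG L A ∧ Structure.FG L B ∧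
    Isotypic L A B ∧ ¬ Nonempty (A ≃[L] B) :=
  ⟨Pool.Agent.R619.Tree.L, fun _ => inferInstance, ∅, A, B, inferInstance, inferInstance,
    fun _ h => absurd h (Set.notMem_empty _), fun _ h => absurd h (Set.notMem_empty _),
    nd_fg _, nd_fg _, isotypic, fun ⟨σ⟩ => not_iso.false σ⟩

end Pool.Agent.Results.MP_c850b7_lc.IsotypicNotIsomorphic
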